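import Mathlib

/-!
# Antichain sums of the numbers `p ^ k * q ^ l`

For all coprime `p > q ≥ 2` other than `(3, 2)` there are infinitely many positive integers coprime
to `p * q` which are not sums of divisibility antichains of numbers `p ^ k * q ^ l`.
-/

set_option autoImplicit false

namespace Pool.Agent.Results.MP_daf63b_nt.AntichainSums

/-- The set `Γ(p, q) = {p ^ k * q ^ l : k, l ≥ 0}`. -/
def Gam (p q : ℕ) : Set ℕ := {m | ∃ k l : ℕ, m = p ^ k * q ^ l}

/-- `n` is representable with respect to `p, q` if it is the sum of the elements of a finite set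
`S ⊆ Γ(p, q)` none of whose elements divides a different element of `S`. -/
def Representable (p q n : ℕ) : Prop :=
  ∃ S : Finset ℕ, (∀ s ∈ S, s ∈ Gam p q) ∧ (∀ s ∈ S, ∀ t ∈ S, s ∣ t → s = t) ∧ ∑ s ∈ S, s = n

/-- Passing from a set of numbers to a set of exponent pairs. -/
lemma exists_pairs {p q n : ℕ} (h : Representable p q n) :
    ∃ T : Finset (ℕ × ℕ), (∀ s ∈ T, ∀ t ∈ T, s.1 ≤ t.1 → s.2 ≤ t.2 → s = t) ∧
      ∑ t ∈ T, p ^ t.1 * q ^ t.2 = n := by
  classical
  obtain ⟨S, hS, hanti, hsum⟩ := h
  have hex : ∀ s : ℕ, ∃ t : ℕ × ℕ, s ∈ S → s = p ^ t.1 * q ^ t.2 := by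
    intro s
    by_cases hs : s ∈ S
    · obtain ⟨k, l, hkl⟩ := hS s hs
      exact ⟨(k, l), fun _ => hkl⟩
    · exact ⟨(0, 0), fun h => absurd h hs⟩
  choose g hg using hex
  have hinj : ∀ s ∈ S, ∀ t ∈ S, g s = g t → s = t := by
    intro s hs t ht hst
    rw [hg s hs, hg t ht, hst]
  refine ⟨S.image g, ?_, ?_⟩
  · intro a ha b hb h1 h2
    obtain ⟨s, hs, rfl⟩ := Finset.mem_image.mp ha
    obtain ⟨t, ht, rfl⟩ := Finset.mem_image.mp hb
    have hdvd : s ∣ t := by
      rw [hg s hs, hg t ht]
      exact mul_dvd_mul (pow_dvd_pow p h1) (pow_dvd_pow q h2)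
    rw [hanti s hs t ht hdvd]
  · rw [Finset.sum_image (fun s hs t ht h => hinj s hs t ht h), ← hsum]
    exact Finset.sum_congr rfl (fun s hs => (hg s hs).symm)

/-- The key descent lemma. -/
lemma key {p q c n A B K N : ℕ} (hq : 2 ≤ q) (hc : 0 < c) (hcp : c < p) (cop : Nat.Coprime p q)
    (hn : c * n = A + B) (hB : 0 < B) (hAK : p ^ K ∣ A) (hA : c * p ^ K < A)
    (hAq : Nat.Coprime A q) (hBN : q ^ N ∣ B) (hpn : n < p ^ (K + 1)) (hqn : n < q ^ (N + 1)) :
    ¬ Representable p q n := by
  classical
  intro hrep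
  obtain ⟨T, hanti, hsum⟩ := exists_pairs hrep
  have hp2 : 1 < p := by omega
  have hle : ∀ t ∈ T, p ^ t.1 * q ^ t.2 ≤ n := by
    intro t ht
    rw [← hsum]
    exact Finset.single_le_sum (f := fun t : ℕ × ℕ => p ^ t.1 * q ^ t.2)
      (fun _ _ => Nat.zero_le _) ht
  have hT1 : ∀ t ∈ T, t.1 ≤ K := by
    intro t ht
    have h1 : p ^ t.1 ≤ n :=
      le_trans (Nat.le_mul_of_pos_right _ (pow_pos (by omega) _)) (hle t ht)
    have h2 : p ^ t.1 < p ^ (K + 1) := lt_of_le_of_lt h1 hpn
    have := (Nat.pow_lt_pow_iff_right hp2).mp h2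
    omega
  have hT2 : ∀ t ∈ T, t.2 ≤ N := by
    intro t ht
    have h1 : q ^ t.2 ≤ n :=
      le_trans (Nat.le_mul_of_pos_left _ (pow_pos (by omega) _)) (hle t ht)
    have h2 : q ^ t.2 < q ^ (N + 1) := lt_of_le_of_lt h1 hqn
    have := (Nat.pow_lt_pow_iff_right (by omega : 1 < q)).mp h2
    omega
  -- partial sums over the exponents of `p` which are at least `j`
  have main : ∀ i : ℕ, i ≤ K + 1 →
      c * ∑ t ∈ T.filter (fun t => K + 1 - i ≤ t.1), p ^ t.1 * q ^ t.2 < A := by
    intro i
    induction i with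
    | zero =>
      intro _
      have hempty : T.filter (fun t => K + 1 - 0 ≤ t.1) = ∅ := by
        apply Finset.filter_eq_empty_iff.mpr
        intro t ht
        have := hT1 t ht
        omega
      rw [hempty, Finset.sum_empty]
      have : 0 ≤ c * p ^ K := Nat.zero_le _
      omega
    | succ i ih =>
      intro hi
      have ih' := ih (by omega)
      set j := K - i with hj
      have e1 : K + 1 - (i + 1) = j := by omega
      have e2 : K + 1 - i = j + 1 := by omega
      rw [e1]
      rw [e2] at ih'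
      set S1 := ∑ t ∈ T.filter (fun t => j + 1 ≤ t.1), p ^ t.1 * q ^ t.2 with hS1
      have hsplit : ∑ t ∈ T.filter (fun t => j ≤ t.1), p ^ t.1 * q ^ t.2
          = S1 + ∑ t ∈ T.filter (fun t => t.1 = j), p ^ t.1 * q ^ t.2 := by
        rw [hS1, ← Finset.sum_union]
        · apply Finset.sum_congr _ (fun _ _ => rfl)
          ext t
          simp only [Finset.mem_filter, Finset.mem_union]
          constructor
          · rintro ⟨h1, h2⟩
            by_cases h3 : t.1 = j
            · exact Or.inr ⟨h1, h3⟩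
            · exact Or.inl ⟨h1, by omega⟩
          · rintro (⟨h1, h2⟩ | ⟨h1, h2⟩)
            · exact ⟨h1, by omega⟩
            · exact ⟨h1, by omega⟩
        · rw [Finset.disjoint_filter]
          intro t _ h1 h2
          omega
      rw [hsplit]
      by_cases hex : ∃ t ∈ T, t.1 = j
      · obtain ⟨t0, ht0, ht0j⟩ := hex
        have hone : T.filter (fun t => t.1 = j) = {t0} := by
          ext t
          simp only [Finset.mem_filter, Finset.mem_singleton]
          constructor
          · rintro ⟨h1, h2⟩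
            rcases le_total t.2 t0.2 with h3 | h3
            · exact hanti t h1 t0 ht0 (by omega) h3
            · exact (hanti t0 ht0 t h1 (by omega) h3).symm
          · rintro rfl
            exact ⟨ht0, ht0j⟩
        rw [hone, Finset.sum_singleton, ht0j]
        set l := t0.2 with hl
        have hlN : l ≤ N := hT2 t0 ht0
        -- the low part
        set S0 := ∑ t ∈ T.filter (fun t => ¬ (j + 1 ≤ t.1)), p ^ t.1 * q ^ t.2 with hS0
        have hS01 : S1 + S0 = n := by
          rw [hS1, hS0, Finset.sum_filter_add_sum_filter_not, hsum]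
        have hlow : q ^ l ∣ S0 := by
          apply Finset.dvd_sum
          intro t ht
          simp only [Finset.mem_filter] at ht
          have h2 : l ≤ t.2 := by
            by_contra hcon
            have := hanti t ht.1 t0 ht0 (by omega) (by omega)
            rw [this] at hcon
            exact hcon le_rfl
          exact Dvd.dvd.mul_left (pow_dvd_pow q h2) _
        have hBl : q ^ l ∣ B := dvd_trans (pow_dvd_pow q hlN) hBN
        -- `A - c * S1 = c * S0 - B` is divisible by `q ^ l`
        have heq : (A : ℤ) - c * S1 = c * S0 - B := by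
          have h1 : (c : ℤ) * n = A + B := by exact_mod_cast hn
          have h2 : (S1 : ℤ) + S0 = n := by exact_mod_cast hS01
          rw [← h2] at h1
          linarith
        have hqdvd : ((q ^ l : ℕ) : ℤ) ∣ (A : ℤ) - c * S1 := by
          rw [heq]
          exact dvd_sub (Dvd.dvd.mul_left (Int.natCast_dvd_natCast.mpr hlow) _)
            (Int.natCast_dvd_natCast.mpr hBl)
        by_cases hjK : j = K
        · -- top exponent: here `l = 0`
          have hS1z : S1 = 0 := by
            rw [hS1]
            apply Finset.sum_eq_zero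
            intro t ht
            simp only [Finset.mem_filter] at ht
            have := hT1 t ht.1
            omega
          rw [hS1z] at hqdvd
          have hqA : q ^ l ∣ A := by
            have : ((q ^ l : ℕ) : ℤ) ∣ (A : ℤ) := by simpa using hqdvd
            exact Int.natCast_dvd_natCast.mp this
          have hcopl : Nat.Coprime (q ^ l) A := (Nat.Coprime.pow_right l hAq).symm
          have hone' : q ^ l = 1 := Nat.Coprime.eq_one_of_dvd hcopl hqA
          rw [hS1z, hone', hjK]
          simpa using hA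
        · have hjK' : j + 1 ≤ K := by omega
          have hpdvd : ((p ^ (j + 1) : ℕ) : ℤ) ∣ (A : ℤ) - c * S1 := by
            have h1 : p ^ (j + 1) ∣ A := dvd_trans (pow_dvd_pow p hjK') hAK
            have h2 : p ^ (j + 1) ∣ S1 := by
              apply Finset.dvd_sum
              intro t ht
              simp only [Finset.mem_filter] at ht
              exact Dvd.dvd.mul_right (pow_dvd_pow p ht.2) _
            exact dvd_sub (Int.natCast_dvd_natCast.mpr h1)
              (Dvd.dvd.mul_left (Int.natCast_dvd_natCast.mpr h2) _)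
          have hcop2 : IsCoprime ((p ^ (j + 1) : ℕ) : ℤ) ((q ^ l : ℕ) : ℤ) :=
            Nat.isCoprime_iff_coprime.mpr (Nat.Coprime.pow _ _ cop)
          have hdvd := hcop2.mul_dvd hpdvd hqdvd
          have hpos : (0 : ℤ) < (A : ℤ) - c * S1 := by
            have : ((c * S1 : ℕ) : ℤ) < (A : ℤ) := by exact_mod_cast ih'
            push_cast at this
            linarith
          have hge := Int.le_of_dvd hpos hdvd
          have hge' : p ^ (j + 1) * q ^ l + c * S1 ≤ A := by
            have : ((p ^ (j + 1) * q ^ l + c * S1 : ℕ) : ℤ) ≤ (A : ℤ) := by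
              push_cast
              push_cast at hge
              linarith
            exact_mod_cast this
          have hlt : c * (p ^ j * q ^ l) < p ^ (j + 1) * q ^ l := by
            have h0 : 0 < p ^ j * q ^ l := Nat.mul_pos (pow_pos (by omega) _) (pow_pos (by omega) _)
            calc c * (p ^ j * q ^ l) < p * (p ^ j * q ^ l) := Nat.mul_lt_mul_of_pos_right hcp h0
              _ = p ^ (j + 1) * q ^ l := by ring
          calc c * (S1 + p ^ j * q ^ l) = c * (p ^ j * q ^ l) + c * S1 := by ring
            _ < p ^ (j + 1) * q ^ l + c * S1 := by omega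
            _ ≤ A := hge'
      · have hnone : T.filter (fun t => t.1 = j) = ∅ := by
          apply Finset.filter_eq_empty_iff.mpr
          intro t ht h
          exact hex ⟨t, ht, h⟩
        rw [hnone, Finset.sum_empty, add_zero]
        exact ih'
  have hfin := main (K + 1) le_rfl
  have hall : T.filter (fun t => K + 1 - (K + 1) ≤ t.1) = T := by
    apply Finset.filter_true_of_mem
    intro t _
    omega
  rw [hall, hsum, hn] at hfin
  omega

/-- A representable number coprime to `q` is congruent to a power of `p` modulo `q`. -/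
lemma local_obstruction {p q n : ℕ} (hq : 2 ≤ q) (hnq : Nat.Coprime n q)
    (hrep : Representable p q n) : ∃ k : ℕ, n ≡ p ^ k [MOD q] := by
  classical
  obtain ⟨T, hanti, hsum⟩ := exists_pairs hrep
  have hex : ∃ t ∈ T, t.2 = 0 := by
    by_contra hcon
    push Not at hcon
    have hdvd : q ∣ n := by
      rw [← hsum]
      apply Finset.dvd_sum
      intro t ht
      exact Dvd.dvd.mul_left (dvd_pow_self q (hcon t ht)) _
    have := Nat.Coprime.eq_one_of_dvd hnq.symm hdvd
    omega
  obtain ⟨t0, ht0, h0⟩ := hex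
  refine ⟨t0.1, ?_⟩
  have hsplit := Finset.sum_erase_add T (fun t : ℕ × ℕ => p ^ t.1 * q ^ t.2) ht0
  rw [hsum] at hsplit
  have hdvd : q ∣ ∑ t ∈ T.erase t0, p ^ t.1 * q ^ t.2 := by
    apply Finset.dvd_sum
    intro t ht
    rw [Finset.mem_erase] at ht
    have : t.2 ≠ 0 := by
      intro h
      apply ht.1
      rcases le_total t.1 t0.1 with h3 | h3
      · exact hanti t ht.2 t0 ht0 h3 (by omega)
      · exact (hanti t0 ht0 t ht.2 h3 (by omega)).symm
    exact Dvd.dvd.mul_left (dvd_pow_self q this) _
  rw [← hsplit, h0, pow_zero, mul_one]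
  have h1 : (∑ t ∈ T.erase t0, p ^ t.1 * q ^ t.2) ≡ 0 [MOD q] :=
    (Nat.modEq_zero_iff_dvd).mpr hdvd
  simpa using h1.add_right (p ^ t0.1)

/-- A power of `q` strictly between `x` and `q * x` when `x` is not a power of `q`. -/
lemma exists_pow_between {q x : ℕ} (hq : 2 ≤ q) (hx : 1 ≤ x) (hne : ∀ m, q ^ m ≠ x) :
    ∃ N : ℕ, x < q ^ N ∧ q ^ N < q * x := by
  refine ⟨Nat.log q x + 1, Nat.lt_pow_succ_log_self (by omega) x, ?_⟩
  have h1 : q ^ Nat.log q x ≤ x := Nat.pow_log_le_self q (by omega)
  have h2 : q ^ Nat.log q x < x := lt_of_le_of_ne h1 (hne _)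
  rw [pow_succ, mul_comm]
  exact Nat.mul_lt_mul_of_pos_left h2 (by omega)

/-- Powers of coprime numbers differ. -/
lemma pow_ne_mul_pow {p q a K : ℕ} (hp : 2 ≤ p) (cop : Nat.Coprime p q) (hK : 1 ≤ K) :
    ∀ m, q ^ m ≠ a * p ^ K := by
  intro m h
  have h1 : p ∣ q ^ m := by
    rw [h]
    exact Dvd.dvd.mul_left (dvd_pow_self p (by omega)) _
  have h2 : Nat.Coprime p (q ^ m) := Nat.Coprime.pow_right m cop
  have := Nat.Coprime.eq_one_of_dvd h2 h1
  omega

/-- The set of all positive non-representable integers coprime to `p * q`. -/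
lemma infinite_of_forall {p q : ℕ}
    (h : ∀ M : ℕ, ∃ n : ℕ, M < n ∧ Nat.Coprime n (p * q) ∧ ¬ Representable p q n) :
    {n : ℕ | 0 < n ∧ Nat.Coprime n (p * q) ∧ ¬ Representable p q n}.Infinite := by
  apply Set.infinite_of_forall_exists_gt
  intro M
  obtain ⟨n, h1, h2, h3⟩ := h M
  exact ⟨n, ⟨by omega, h2, h3⟩, h1⟩

/-- Family 1: `n = a * p ^ K + q ^ N`. -/
lemma family_one {p q a : ℕ} (hq : 2 ≤ q) (hqp : q < p) (cop : Nat.Coprime p q) (ha : 2 ≤ a)
    (haq : Nat.Coprime a q) {K N : ℕ} (hK : 1 ≤ K) (hN : 1 ≤ N)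
    (h1 : a * p ^ K < (q - 1) * q ^ N) (h2 : q ^ N < (p - a) * p ^ K) :
    Nat.Coprime (a * p ^ K + q ^ N) (p * q) ∧ ¬ Representable p q (a * p ^ K + q ^ N) := by
  have hcAq : Nat.Coprime (a * p ^ K) q := Nat.Coprime.mul_left haq (Nat.Coprime.pow_left K cop)
  have hpa : a < p := by
    by_contra hcon
    have : p - a = 0 := by omega
    rw [this, zero_mul] at h2
    omega
  constructor
  · apply Nat.Coprime.mul_right
    · have h3 : p ∣ a * p ^ K := Dvd.dvd.mul_left (dvd_pow_self p (by omega)) _
      obtain ⟨d, hd⟩ := h3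
      rw [hd]
      have : Nat.Coprime (q ^ N) p := Nat.Coprime.pow_left N cop.symm
      rw [Nat.coprime_mul_left_add_left]
      exact this
    · have h3 : q ∣ q ^ N := dvd_pow_self q (by omega)
      obtain ⟨d, hd⟩ := h3
      rw [hd]
      rw [Nat.coprime_add_mul_left_left]
      exact hcAq
  · apply key (c := 1) (A := a * p ^ K) (B := q ^ N) (K := K) (N := N) hq one_pos (by omega) cop
      (by ring) (pow_pos (by omega) _) (Dvd.intro_left _ rfl)
    · exact Nat.mul_lt_mul_of_pos_right (by omega) (pow_pos (by omega) _)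
    · exact hcAq
    · exact dvd_rfl
    · have : p ^ (K + 1) = a * p ^ K + (p - a) * p ^ K := by
        rw [← add_mul, pow_succ, mul_comm]
        congr 1
        omega
      rw [this]
      omega
    · have : q ^ (N + 1) = (q - 1) * q ^ N + q ^ N := by
        rw [← Nat.succ_mul, pow_succ, mul_comm]
        congr 1
        omega
      rw [this]
      omega

lemma lt_of_pow {p M : ℕ} (hp : 2 ≤ p) : M < p ^ (M + 1) :=
  lt_trans (Nat.lt_succ_self M) (Nat.lt_pow_self (by omega))

theorem result (p q : ℕ) (hq : 2 ≤ q) (hqp : q < p) (cop : Nat.Coprime p q)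
    (hne : ¬ (p = 3 ∧ q = 2)) :
    {n : ℕ | 0 < n ∧ Nat.Coprime n (p * q) ∧ ¬ Representable p q n}.Infinite := by
  apply infinite_of_forall
  intro M
  have hp2 : 2 ≤ p := by omega
  by_cases hq3 : 3 ≤ q
  · by_cases hpq1 : p = q + 1
    · -- local obstruction modulo `q`
      refine ⟨p * q * (M + 2) - 1, ?_, ?_, ?_⟩
      · have : 2 * (M + 2) ≤ p * q * (M + 2) := by
          apply Nat.mul_le_mul_right
          nlinarith
        omega
      · have h1 : 1 ≤ p * q * (M + 2) := Nat.mul_pos (Nat.mul_pos (by omega) (by omega)) (by omega)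
        have h2 : p * q * (M + 2) - 1 + 1 = p * q * (M + 2) := by omega
        set n := p * q * (M + 2) - 1
        have h3 : Nat.Coprime n (n + 1) := by simp
        rw [h2] at h3
        exact Nat.Coprime.coprime_mul_right_right h3
      · intro hrep
        have h1 : 1 ≤ p * q * (M + 2) := Nat.mul_pos (Nat.mul_pos (by omega) (by omega)) (by omega)
        have h2 : p * q * (M + 2) - 1 + 1 = p * q * (M + 2) := by omega
        set n := p * q * (M + 2) - 1 with hn
        have h3 : Nat.Coprime n q := by
          have h3 : Nat.Coprime n (n + 1) := by simp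
          rw [h2] at h3
          exact Nat.Coprime.coprime_mul_left_right (Nat.Coprime.coprime_mul_right_right h3)
        obtain ⟨k, hk⟩ := local_obstruction hq h3 hrep
        have h4 : p ≡ 1 [MOD q] := by
          rw [hpq1]
          simp [Nat.ModEq]
        have h5 : p ^ k ≡ 1 [MOD q] := by simpa using h4.pow k
        have h6 : n + 1 ≡ 1 + 1 [MOD q] := (hk.trans h5).add_right 1
        have h7 : n + 1 ≡ 0 [MOD q] := by
          rw [h2]
          exact (Nat.modEq_zero_iff_dvd).mpr ⟨p * (M + 2), by ring⟩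
        have h8 : q ∣ 2 := (Nat.modEq_zero_iff_dvd).mp (h6.symm.trans h7)
        have := Nat.le_of_dvd (by norm_num) h8
        omega
    · -- `n = a * p ^ K + q ^ N`
      set K := M + 1 with hK
      obtain ⟨N, hN1, hN2⟩ := exists_pow_between hq (pow_pos (by omega : 0 < p) K)
        (by simpa using pow_ne_mul_pow (a := 1) hp2 cop (by omega : 1 ≤ K))
      have hMp : M < p ^ K := lt_of_pow hp2
      have hN0 : 1 ≤ N := by
        rcases Nat.eq_zero_or_pos N with h | h
        · rw [h, pow_zero] at hN1
          have := pow_pos (by omega : 0 < p) K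
          omega
        · exact h
      by_cases hpq : p - q ≤ q - 1
      · have hcopa : Nat.Coprime (p - q) q := (Nat.coprime_sub_self_left hqp.le).mpr cop
        have h1 : (p - q) * p ^ K < (q - 1) * q ^ N :=
          lt_of_le_of_lt (Nat.mul_le_mul_right _ hpq)
            (Nat.mul_lt_mul_of_pos_left hN1 (by omega))
        have h2 : q ^ N < (p - (p - q)) * p ^ K := by
          have : p - (p - q) = q := by omega
          rw [this]
          exact hN2
        obtain ⟨g1, g2⟩ := family_one hq hqp cop (by omega) hcopa (by omega) hN0 h1 h2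
        refine ⟨_, ?_, g1, g2⟩
        have : 1 * p ^ K ≤ (p - q) * p ^ K := Nat.mul_le_mul_right _ (by omega)
        omega
      · have hcopa : Nat.Coprime (q - 1) q := by
          have h3 : Nat.Coprime (q - 1) ((q - 1) + 1) := by simp
          have h4 : q - 1 + 1 = q := by omega
          rwa [h4] at h3
        have h1 : (q - 1) * p ^ K < (q - 1) * q ^ N :=
          Nat.mul_lt_mul_of_pos_left hN1 (by omega)
        have h2 : q ^ N < (p - (q - 1)) * p ^ K :=
          lt_of_lt_of_le hN2 (Nat.mul_le_mul_right _ (by omega))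
        obtain ⟨g1, g2⟩ := family_one hq hqp cop (by omega) hcopa (by omega) hN0 h1 h2
        refine ⟨_, ?_, g1, g2⟩
        have : 1 * p ^ K ≤ (q - 1) * p ^ K := Nat.mul_le_mul_right _ (by omega)
        omega
  · have hq2 : q = 2 := by omega
    subst hq2
    have hpodd : p % 2 = 1 := by
      exact Nat.odd_iff.mp (Nat.coprime_two_right.mp cop)
    have hp5 : 5 ≤ p := by
      have : p ≠ 3 := fun h => hne ⟨h, rfl⟩
      omega
    set K := M + 1 with hK
    have hMp : M < p ^ K := lt_of_pow hp2
    by_cases h3p : 3 ∣ p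
    · -- `n = 3 * p ^ K + 2 ^ N`
      have hp9 : 9 ≤ p := by omega
      have hpK : 0 < p ^ K := pow_pos (by omega) K
      obtain ⟨N, hN1, hN2⟩ := exists_pow_between (le_refl 2) (by omega : 1 ≤ 3 * p ^ K)
        (pow_ne_mul_pow (a := 3) hp2 cop (by omega : 1 ≤ K))
      have hN0 : 1 ≤ N := by
        rcases Nat.eq_zero_or_pos N with h | h
        · rw [h, pow_zero] at hN1
          omega
        · exact h
      have h1 : 3 * p ^ K < (2 - 1) * 2 ^ N := by simpa using hN1
      have h2 : 2 ^ N < (p - 3) * p ^ K := by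
        have : 6 * p ^ K ≤ (p - 3) * p ^ K := Nat.mul_le_mul_right _ (by omega)
        omega
      obtain ⟨g1, g2⟩ := family_one (le_refl 2) hqp cop (by norm_num : 2 ≤ 3) (by norm_num)
        (by omega) hN0 h1 h2
      refine ⟨_, ?_, g1, g2⟩
      omega
    · -- `3 * n = p ^ K' + 2 ^ N`
      set L := M + 2 with hL
      have hpLodd : p ^ L % 2 = 1 := by
        have : Odd (p ^ L) := (Nat.odd_iff.mpr hpodd).pow
        exact Nat.odd_iff.mp this
      have hpL3 : ¬ 3 ∣ p ^ L := fun h => h3p (Nat.Prime.dvd_of_dvd_pow Nat.prime_three h)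
      have hpLpos : 0 < p ^ L := pow_pos (by omega) L
      have hMpL : 5 * (M + 1) ≤ p ^ L := by
        have h5 : p ^ L = p ^ K * p := by rw [hL, hK, ← pow_succ]
        rw [h5]
        calc 5 * (M + 1) = (M + 1) * 5 := by ring
          _ ≤ p ^ K * p := Nat.mul_le_mul (by omega) hp5
      set N0 := Nat.log 2 (p ^ L) with hN0
      have e1 : 2 ^ N0 ≤ p ^ L := Nat.pow_log_le_self 2 (by omega)
      have e2 : p ^ L < 2 ^ (N0 + 1) := Nat.lt_pow_succ_log_self (by norm_num) _
      have hN0pos : 1 ≤ N0 := by
        rcases Nat.eq_zero_or_pos N0 with h | h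
        · rw [h] at e2
          norm_num at e2
          omega
        · exact h
      have e3 : 2 ^ N0 % 2 = 0 := by
        obtain ⟨m, hm⟩ : ∃ m, N0 = m + 1 := ⟨N0 - 1, by omega⟩
        rw [hm, pow_succ]
        omega
      have e4 : 2 ^ N0 < p ^ L := by omega
      -- choose the parity of the exponent
      have hchoice : ∃ N : ℕ, N0 ≤ N ∧ N ≤ N0 + 1 ∧ (p ^ L + 2 ^ N) % 3 = 0 := by
        have h23 : 2 ^ N0 % 3 ≠ 0 := by
          intro h
          have h3 : 3 ∣ 2 ^ N0 := Nat.dvd_of_mod_eq_zero h
          have := Nat.Prime.dvd_of_dvd_pow Nat.prime_three h3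
          omega
        have hpL3' : p ^ L % 3 ≠ 0 := fun h => hpL3 (Nat.dvd_of_mod_eq_zero h)
        have h24 : 2 ^ (N0 + 1) = 2 * 2 ^ N0 := by rw [pow_succ, mul_comm]
        have hy : 2 ^ N0 % 3 = 1 ∨ 2 ^ N0 % 3 = 2 := by omega
        have hx : p ^ L % 3 = 1 ∨ p ^ L % 3 = 2 := by omega
        by_cases hc : (p ^ L + 2 ^ N0) % 3 = 0
        · exact ⟨N0, le_rfl, by omega, hc⟩
        · refine ⟨N0 + 1, by omega, le_rfl, ?_⟩
          rw [h24]
          rcases hy with hy | hy <;> rcases hx with hx | hx <;> omega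
      obtain ⟨N, hNl, hNu, hN3⟩ := hchoice
      have e5 : 2 ^ N0 ≤ 2 ^ N := Nat.pow_le_pow_right (by norm_num) hNl
      have e6 : 2 ^ N ≤ 2 ^ (N0 + 1) := Nat.pow_le_pow_right (by norm_num) hNu
      have e7 : 2 ^ (N0 + 1) = 2 * 2 ^ N0 := by rw [pow_succ, mul_comm]
      have hN1 : 1 ≤ N := by omega
      obtain ⟨n, hn⟩ : ∃ n, p ^ L + 2 ^ N = 3 * n := Nat.dvd_of_mod_eq_zero hN3
      have e8 : 2 ^ N % 2 = 0 := by
        obtain ⟨m, hm⟩ : ∃ m, N = m + 1 := ⟨N - 1, by omega⟩
        rw [hm, pow_succ]
        omega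
      have hcop3 : Nat.Coprime p 3 := by
        rw [Nat.coprime_comm]
        exact (Nat.Prime.coprime_iff_not_dvd Nat.prime_three).mpr h3p
      refine ⟨n, by omega, ?_, ?_⟩
      · apply Nat.Coprime.mul_right
        · have h1 : Nat.Coprime (3 * n) p := by
            rw [← hn]
            obtain ⟨d, hd⟩ : p ∣ p ^ L := dvd_pow_self p (by omega)
            rw [hd, Nat.coprime_mul_left_add_left]
            exact Nat.Coprime.pow_left N cop.symm
          exact Nat.Coprime.coprime_mul_left h1
        · rw [Nat.coprime_two_right, Nat.odd_iff]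
          omega
      · obtain ⟨L', hL'⟩ : ∃ L', L = L' + 1 := ⟨L - 1, by omega⟩
        obtain ⟨N', hN'⟩ : ∃ N', N = N' + 1 := ⟨N - 1, by omega⟩
        apply key (c := 3) (A := p ^ L) (B := 2 ^ N) (K := L') (N := N') (le_refl 2)
          (by norm_num) (by omega) cop hn.symm (by positivity)
        · exact pow_dvd_pow p (by omega)
        · rw [hL', pow_succ, mul_comm]
          exact Nat.mul_lt_mul_of_pos_left (by omega) (pow_pos (by omega) _)
        · exact Nat.Coprime.pow_left L cop
        · exact pow_dvd_pow 2 (by omega)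
        · rw [← hL']
          omega
        · rw [← hN']
          omega

end Pool.Agent.Results.MP_daf63b_nt.AntichainSums
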